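import Pool.Agent.V11333.Cone8
import Pool.Agent.V11333.Cone9

/-!
# Upper bounds for the smoothed products of Birch and Swinnerton-Dyer

Let `E : y² = x³ + a x + b` be an elliptic curve over a number field `K` (in the problem: `K = ℚ`),
`a, b ∈ 𝓞_K`, and let `L(E, s)` be its `L`-function, without the Euler factors at the primes `v` dividing
`6 (4 a³ + 27 b²)`. The only hypothesis is that `L(E, s)` has a continuation `F` along the REAL axis to
`s ≥ 1`, analytic at the real points; zeros are allowed (over `ℚ` the entire continuation is known). For the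
numbers `N_v + 1 = #E(k_v)` of points modulo the other primes the original conjecture is about the products
`∏_{q_v ≤ x} #E(k_v)/q_v`; here the cut-off is replaced by the weights
`w_ρ(u) = (1/2πi) ∫ exp(z - u z^{1/ρ}) dz/z`, `ρ > 1`, `w_ρ(0) = 1`, which decay so fast that the products

`P_ρ(Y) = ∏_v (#E(k_v)/q_v)^{w_ρ(log q_v / log Y)}`, `log P_ρ(Y) = ∑_v w_ρ(log q_v / log Y) log (#E(k_v)/q_v)`,

are up to bounded factors finite products over `q_v ≤ exp ((log Y)^{ρ'})`, for any `ρ' > ρ`. It is shown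
that for every REAL `t`:

`P_ρ(Y) ≤ C_ρ (log Y)^t` for large `Y`, for all `ρ > 1`, if and only if `ord_{s=1} L(E, s) ≤ t` and `L(E, s)` has
a holomorphic continuation WITHOUT ZEROS to the half plane `Re s > 1`.

So UPPER bounds alone (no lower bounds, no asymptotic formula) for the smoothed products give the
Riemann hypothesis to the right of the central line, the continuation to the half plane, and the upper
bound `t` for the analytic rank; and the exponent has a gap: bounds with some `t < r + 1` imply bounds with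
`t = r`. The analytic rank formula `ord_{s=1} L(E, s) = rank E(K)` together with the Riemann hypothesis to the
right is equivalent to: the upper bounds hold exactly for the `t ≥ rank E(K)`.

The two-sided law (assuming a continuation to the half plane) is MP_cd906c_nt.SectorialRankLaw. New is the
one-sided direction: the mean values of a nonnegative function are compared on the real axis, where the
correction function of the local factors is bounded (`Pool.Agent.V11333.Cone9`).
-/

set_option autoImplicit false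

namespace Pool.Agent.Results.MP_3283e1_nt.OneSidedSmoothProducts

open Filter Topology Set NumberField IsDedekindDomain

variable {K : Type} [Field K] [NumberField K]

/-- The norm of `v`. -/
noncomputable def nrm (v : HeightOneSpectrum (𝓞 K)) : ℕ := Ideal.absNorm v.asIdeal

/-- `v` does not divide `6 (4 a³ + 27 b²)`. -/
def Good (a b : 𝓞 K) (v : HeightOneSpectrum (𝓞 K)) : Prop :=
  6 * (4 * a ^ 3 + 27 * b ^ 2) ∉ v.asIdeal

/-- The number `N_v` of affine points of `y² = x³ + a x + b` modulo `v`; `#E(k_v) = N_v + 1`. -/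
noncomputable def pts (a b : 𝓞 K) (v : HeightOneSpectrum (𝓞 K)) : ℕ :=
  Nat.card {P : (𝓞 K ⧸ v.asIdeal) × (𝓞 K ⧸ v.asIdeal) //
    P.2 ^ 2 = P.1 ^ 3 + Ideal.Quotient.mk v.asIdeal a * P.1 + Ideal.Quotient.mk v.asIdeal b}

/-- The Euler factor `(1 - a_v q_v^{-s} + q_v^{1 - 2s})⁻¹`, `a_v = q_v - N_v`. -/
noncomputable def factor (a b : 𝓞 K) (v : HeightOneSpectrum (𝓞 K)) (s : ℂ) : ℂ :=
  (1 - ((nrm v : ℂ) - pts a b v) * (nrm v : ℂ) ^ (-s) + (nrm v : ℂ) ^ (1 - 2 * s))⁻¹

/-- `F` is a continuation of `L(E, s)` along the real axis: analytic at all real `x ≥ 1`, and equal to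
the Euler product for real `x > 3/2`. -/
def IsRealContinuation (a b : 𝓞 K) (F : ℂ → ℂ) : Prop :=
  (∀ x : ℝ, 1 ≤ x → AnalyticAt ℂ F x) ∧
    ∀ x : ℝ, 3 / 2 < x → HasProd (fun v : {v // Good a b v} => factor a b v.1 x) (F x)

/-- `L(E, s)` has a holomorphic continuation `G` without zeros to the half plane `Re s > 1`. -/
def ZeroFree (a b : 𝓞 K) : Prop :=
  ∃ G : ℂ → ℂ, (∀ s : ℂ, 1 < s.re → DifferentiableAt ℂ G s ∧ G s ≠ 0) ∧
    ∀ s : ℂ, 3 / 2 < s.re → HasProd (fun v : {v // Good a b v} => factor a b v.1 s) (G s)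

/-- The weight `w_ρ(u) = (1/2πi) ∫_{Re z = 1} exp(z - u z^{1/ρ}) dz/z`. -/
noncomputable def weight (ρ u : ℝ) : ℝ :=
  (2 * Real.pi)⁻¹ * ∫ t : ℝ, (Complex.exp ((1 + t * Complex.I) -
    u * (1 + t * Complex.I) ^ ((ρ⁻¹ : ℝ) : ℂ)) / (1 + t * Complex.I)).re

/-- The logarithm of the smoothed product `P_ρ(Y)`: the sum of
`w_ρ(log q_v / log Y) log (#E(k_v) / q_v)` over the good primes with `q_v ≤ exp ((log Y)^{ρ'})`. -/
noncomputable def logProduct (a b : 𝓞 K) (ρ ρ' Y : ℝ) : ℝ :=
  ∑ᶠ (v : {v // Good a b v}) (_ : (nrm v.1 : ℝ) ≤ Real.exp (Real.log Y ^ ρ')),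
    weight ρ (Real.log (nrm v.1) / Real.log Y) * Real.log (((pts a b v.1 : ℝ) + 1) / nrm v.1)

/-- `P_ρ(Y) ≤ e^C (log Y)^t` for large `Y`, for all `ρ' > ρ > 1` (with `C` depending on `ρ`, `ρ'`). -/
def UpperBounds (a b : 𝓞 K) (t : ℝ) : Prop :=
  ∀ ρ ρ' : ℝ, 1 < ρ → ρ < ρ' → ∃ C : ℝ, ∀ᶠ Y : ℝ in atTop,
    logProduct a b ρ ρ' Y ≤ t * Real.log (Real.log Y) + C

open Classical in
/-- The rank of the group `E(K)`. -/
noncomputable def rank (a b : 𝓞 K) : ℕ :=
  Module.finrank ℤ (⟨0, 0, 0, (a : K), (b : K)⟩ : WeierstrassCurve K).toAffine.Point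

open Pool.Agent.TH942.ES
open Pool.Agent.V11333

theorem mean_eq (a b : 𝓞 K) (ρ ρ' Y : ℝ) : logProduct a b ρ ρ' Y =
    SrE (fun v : {v // GoodV a b v} => Pool.Agent.H921R2.TatePole.nm v.1) (alV a b) ρ ρ' Y := by
  unfold logProduct SrE
  refine finsum_congr fun v => finsum_congr fun _ => ?_
  rw [curve_cv]
  rfl

theorem prod_eq (a b : 𝓞 K) (s : ℂ) :
    (fun v : {v // Good a b v} => factor a b v.1 (1 + s)) = fun v : {v // GoodV a b v} =>
      ∏ i, (1 - zv (fun v : {v // GoodV a b v} => Pool.Agent.H921R2.TatePole.nm v.1) (alV a b) v i *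
        xv (fun v : {v // GoodV a b v} => Pool.Agent.H921R2.TatePole.nm v.1) v s)⁻¹ := by
  funext v
  rw [curve_factor]
  rfl

theorem hasProd_iff (a b : 𝓞 K) {s : ℂ} (hs : 1 / 2 < s.re) (y : ℂ) :
    HasProd (fun v : {v // Good a b v} => factor a b v.1 (1 + s)) y ↔
      y = LE (fun v : {v // GoodV a b v} => Pool.Agent.H921R2.TatePole.nm v.1) (alV a b) s := by
  have h2 := (curve_sys a b).hasProd hs
  rw [prod_eq a b s]
  constructor
  · intro h
    exact h.tprod_eq.symm
  · rintro rfl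
    unfold Pool.Agent.TH942.ES.LE
    rw [h2.tprod_eq]
    exact h2

theorem zero_iff (a b : 𝓞 K) : ZeroFree a b ↔
    ∃ G : ℂ → ℂ, (∀ s : ℂ, 0 < s.re → DifferentiableAt ℂ G s ∧ G s ≠ 0) ∧
      ∀ s : ℂ, 1 / 2 < s.re → G s =
        LE (fun v : {v // GoodV a b v} => Pool.Agent.H921R2.TatePole.nm v.1) (alV a b) s := by
  constructor
  · rintro ⟨G, g1, g2⟩
    refine ⟨fun s => G (1 + s), fun s hs => ?_, fun s hs => ?_⟩
    · have h4 := g1 (1 + s) (by rw [Complex.add_re, Complex.one_re]; linarith)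
      exact ⟨h4.1.comp s (by fun_prop), h4.2⟩
    · exact (hasProd_iff a b hs _).1 (g2 (1 + s) (by
        rw [Complex.add_re, Complex.one_re]
        linarith))
  · rintro ⟨G, g1, g2⟩
    refine ⟨fun s => G (s - 1), fun s hs => ?_, fun s hs => ?_⟩
    · have h4 := g1 (s - 1) (by rw [Complex.sub_re, Complex.one_re]; linarith)
      exact ⟨h4.1.comp s (by fun_prop), h4.2⟩
    · have h5 : 1 / 2 < (s - 1).re := by
        rw [Complex.sub_re, Complex.one_re]
        linarith
      have h6 := (hasProd_iff a b h5 (G (s - 1))).2 (g2 _ h5)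
      rwa [add_sub_cancel] at h6

/-- the main step -/
theorem law {a b : 𝓞 K} {F : ℂ → ℂ} (hF : IsRealContinuation a b F) (t : ℝ) :
    UpperBounds a b t ↔ (∃ m : ℕ, analyticOrderAt F 1 = m ∧ (m : ℝ) ≤ t) ∧ ZeroFree a b := by
  have hF1 : AnalyticAt ℂ F ((1 : ℝ) : ℂ) := hF.1 1 le_rfl
  have h1 := Cone.order_upper_primes (curve_sys a b) (H := fun s => F (s + ((1 : ℝ) : ℂ)))
    (fun x hx => CP.an_shift (c := 0) (hF.1 _ (by linarith)))
    (fun x hx => by
      have h4 := hF.2 (1 + x) (by linarith)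
      have h5 : (((1 + x : ℝ)) : ℂ) = 1 + (x : ℂ) := by push_cast; rfl
      rw [h5] at h4
      have h6 := (hasProd_iff a b (s := (x : ℂ)) (by rwa [Complex.ofReal_re]) _).1 h4
      rw [Complex.ofReal_one, add_comm]
      exact h6) t
  rw [CP.order_shift hF1, Complex.ofReal_one, ← zero_iff] at h1
  rw [← h1]
  unfold UpperBounds
  simp only [mean_eq]

/-- **Theorem.** Let `K` be a number field, `a, b ∈ 𝓞_K`, `E : y² = x³ + a x + b`, and let `F` be a
continuation of `L(E, s)` along the real axis which is analytic at all real `s ≥ 1`.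

(1) For all real `t`: `P_ρ(Y) ≤ C (log Y)^t` for large `Y`, for all `ρ > 1` (`C` depending on `ρ`), if and only
if `ord_{s=1} L(E, s) ≤ t` and `L(E, s)` has a holomorphic continuation without zeros to `Re s > 1`.

(2) `ord_{s=1} L(E, s) = rank E(K)` and `L(E, s)` has such a continuation if and only if the bounds of (1)
hold exactly for the real `t ≥ rank E(K)`. -/
theorem result (a b : 𝓞 K) (F : ℂ → ℂ) (hF : IsRealContinuation a b F) :
    (∀ t : ℝ, UpperBounds a b t ↔
      (∃ m : ℕ, analyticOrderAt F 1 = m ∧ (m : ℝ) ≤ t) ∧ ZeroFree a b) ∧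
    ((analyticOrderAt F 1 = rank a b ∧ ZeroFree a b) ↔
      ∀ t : ℝ, (UpperBounds a b t ↔ (rank a b : ℝ) ≤ t)) := by
  refine ⟨fun t => law hF t, ⟨?_, ?_⟩⟩
  · rintro ⟨h1, h2⟩ t
    rw [law hF t]
    constructor
    · rintro ⟨⟨m, h3, h4⟩, -⟩
      rw [h1] at h3
      have h5 : rank a b = m := by exact_mod_cast h3
      rwa [h5]
    · intro h3
      exact ⟨⟨rank a b, h1, h3⟩, h2⟩
  · intro h
    obtain ⟨⟨m, h3, h4⟩, h5⟩ := (law hF _).1 ((h (rank a b)).2 le_rfl)
    have h6 : (rank a b : ℝ) ≤ m := (h m).1 ((law hF _).2 ⟨⟨m, h3, le_rfl⟩, h5⟩)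
    have h7 : m = rank a b := by
      have h8 : m ≤ rank a b := by exact_mod_cast h4
      have h9 : rank a b ≤ m := by exact_mod_cast h6
      omega
    rw [h7] at h3
    exact ⟨h3, h5⟩

end Pool.Agent.Results.MP_3283e1_nt.OneSidedSmoothProducts
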